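import Pool.Agent.Y731.CC.Main

/-!
# Heights and sections of `n (K + D) - H`
-/

set_option autoImplicit false
set_option linter.unusedSectionVars false
set_option linter.unusedVariables false

namespace Pool.Agent.Y731.CC

open FF Filter MvPolynomial Pool.Agent.W603.LV Pool.Agent.W603.PV Pool.Agent.W603.CZ
  Pool.Agent.Y731.FG

variable {k K : Type} [Field k] [IsAlgClosed k] [CharZero k] [Field K] [Algebra k K] [IsFF k K]

/-- The height inequality of a section of `n (K + D) - H`. -/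
theorem kod {M w q : ℕ} {ι : Type} [Finite ι] (E : Fin q → Fin w → MvPolynomial (Fin M) k)
    (d : Fin q → Fin w → ℕ) (x : Fin M → K) (hx : ∃ c, x c ≠ 0)
    (hE : ∀ i, ∃ j, aeval x (E i j) ≠ 0) (μ : ι → K) (J : ι) (hJ : μ J ≠ 0) (u v : K)
    (hu : u ≠ 0) (hv : v ≠ 0) (n a b N : ℕ) (hab : b = a + n * (N + 1) + 1)
    (h : ∀ P : Place k K, 0 ≤ (P.ord u - a * minOrd P x) - (P.ord v - b * minOrd P x) +
      n * (P.ord (μ J) - minOrd P μ) + n * ∑ i, locH (E i) (d i) P x) :
    hgtP k x ≤ n * (hgtP k μ - (N + 1) * hgtP k x + ∑ i, ∑ᶠ P : Place k K,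
      locH (E i) (d i) P x) := by
  classical
  have hf1 : (⋃ i : Fin q, {P : Place k K | locH (E i) (d i) P x ≠ 0}).Finite :=
    Set.finite_iUnion fun i => locH_finite hx (hE i)
  have hf2 := minOrd_finite (k := k) hx
  have hf3 := minOrd_finite (k := k) (x := μ) ⟨J, hJ⟩
  have hf4 := finite_support (k := k) u
  have hf5 := finite_support (k := k) v
  have hf6 := finite_support (k := k) (μ J)
  set T := hf1.toFinset ∪ hf2.toFinset ∪ hf3.toFinset ∪ hf4.toFinset ∪ hf5.toFinset ∪
    hf6.toFinset with hT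
  have hT1 : ∀ i P, locH (E i) (d i) P x ≠ 0 → P ∈ T := by
    intro i P hP
    simp only [hT, Finset.mem_union, Set.Finite.mem_toFinset, Set.mem_iUnion]
    exact Or.inl (Or.inl (Or.inl (Or.inl (Or.inl ⟨i, hP⟩))))
  have hT2 : ∀ P, minOrd P x ≠ 0 → P ∈ T := by
    intro P hP
    simp only [hT, Finset.mem_union, Set.Finite.mem_toFinset, Set.mem_iUnion]
    exact Or.inl (Or.inl (Or.inl (Or.inl (Or.inr hP))))
  have hT3 : ∀ P, minOrd P μ ≠ 0 → P ∈ T := by
    intro P hP
    simp only [hT, Finset.mem_union, Set.Finite.mem_toFinset, Set.mem_iUnion]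
    exact Or.inl (Or.inl (Or.inl (Or.inr hP)))
  have hT4 : ∀ P : Place k K, P.ord u ≠ 0 → P ∈ T := by
    intro P hP
    simp only [hT, Finset.mem_union, Set.Finite.mem_toFinset, Set.mem_iUnion]
    exact Or.inl (Or.inl (Or.inr hP))
  have hT5 : ∀ P : Place k K, P.ord v ≠ 0 → P ∈ T := by
    intro P hP
    simp only [hT, Finset.mem_union, Set.Finite.mem_toFinset, Set.mem_iUnion]
    exact Or.inl (Or.inr hP)
  have hT6 : ∀ P : Place k K, P.ord (μ J) ≠ 0 → P ∈ T := by
    intro P hP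
    simp only [hT, Finset.mem_union, Set.Finite.mem_toFinset, Set.mem_iUnion]
    exact Or.inr hP
  have h1 := Finset.sum_nonneg fun P (_ : P ∈ T) => h P
  have h2 : ∀ i, ∑ᶠ P : Place k K, locH (E i) (d i) P x = ∑ P ∈ T, locH (E i) (d i) P x := by
    intro i
    rw [finsum_eq_sum_of_support_subset (s := T)]
    exact fun P hP => hT1 i P hP
  have g1 := sum_ord_finset (k := k) u T hT4
  have g2 := sum_ord_finset (k := k) v T hT5
  have g3 := sum_ord_finset (k := k) (μ J) T hT6
  have g4 := hgtP_finset hx T hT2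
  have g5 := hgtP_finset (x := μ) ⟨J, hJ⟩ T hT3
  rw [Finset.sum_add_distrib, Finset.sum_add_distrib, Finset.sum_sub_distrib,
    Finset.sum_sub_distrib, Finset.sum_sub_distrib, ← Finset.mul_sum, ← Finset.mul_sum,
    ← Finset.mul_sum, ← Finset.mul_sum, Finset.sum_sub_distrib, g1, g2, g3, Finset.sum_comm] at h1
  rw [Finset.sum_congr rfl fun i _ => h2 i]
  have g6 : ∑ P ∈ T, minOrd P x = -hgtP k x := by rw [g4, neg_neg]
  have g7 : ∑ P ∈ T, minOrd P μ = -hgtP k μ := by rw [g5, neg_neg]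
  rw [g6, g7] at h1
  subst hab
  push_cast at h1
  linarith

end Pool.Agent.Y731.CC
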