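import Pool.Agent.Y731.CC.Ind

/-!
# Constant coefficients: the data for a family of function fields
-/

set_option autoImplicit false
set_option linter.unusedSectionVars false
set_option linter.unusedVariables false

namespace Pool.Agent.Y731.CC

open FF Filter Pool.Agent.W603.LV Pool.Agent.W603.PV Pool.Agent.W603.CZ Pool.Agent.Y731.FG

section one

variable {k K : Type} [Field k] [IsAlgClosed k] [CharZero k] [Field K] [Algebra k K] [IsFF k K]

/-- the derivation `u d/du` has no zeros off the support of `u` -/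
theorem vo_le_zero (P : Place k K) {u : K} (hu0 : u ≠ 0) (hu : P.ord u = 0)
    {D : Derivation k K K} (hD : D ≠ 0) (hDu : D u = u) : vo P D ≤ 0 := by
  have hπ := ord_unif P
  have h1 : D (unif P) ≠ 0 := der_pi_ne_zero hD P hπ
  have h2 := der_reg P hπ ((D (unif P))⁻¹ • D) (by
    rw [Derivation.coe_smul, Pi.smul_apply, smul_eq_mul, inv_mul_cancel₀ h1])
    (f := u) (Or.inr (by omega))
  rw [Derivation.coe_smul, Pi.smul_apply, smul_eq_mul, hDu] at h2
  have h3 := h2.resolve_left (mul_ne_zero (inv_ne_zero h1) hu0)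
  rw [P.ord_mul (inv_ne_zero h1) hu0, P.ord_inv, hu] at h3
  show P.ord (D (unif P)) ≤ 0
  omega

/-- the derivation `u d/du` has simple zeros on the support of `u` -/
theorem vo_eq_one (P : Place k K) {u : K} (hu : P.ord u ≠ 0)
    {D : Derivation k K K} (hD : D ≠ 0) (hDu : D u = u) : vo P D = 1 := by
  have h1 := (ord_der P hD hu).2
  rw [hDu] at h1
  omega

/-- the derivation `u d/du` -/
theorem exists_log_der {u : K} (hu : Transcendental k u) :
    ∃ D : Derivation k K K, D ≠ 0 ∧ D u = u := by
  have h1 := der_ne_zero (der_ne (k := k) (K := K)) hu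
  refine ⟨(u / der k K u) • der k K, ?_, ?_⟩
  · intro h
    have h2 := congrArg (fun D : Derivation k K K => D u) h
    simp only [Derivation.coe_smul, Pi.smul_apply, smul_eq_mul, Derivation.coe_zero,
      Pi.zero_apply] at h2
    rw [div_mul_cancel₀ _ h1] at h2
    rw [h2] at hu
    exact hu (isAlgebraic_zero)
  · rw [Derivation.coe_smul, Pi.smul_apply, smul_eq_mul, div_mul_cancel₀ _ h1]

theorem sum_abs_vo {u : K} (hu : Transcendental k u) {D : Derivation k K K} (hD : D ≠ 0)
    (hDu : D u = u) (T : Finset (Place k K)) :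
    ∑ P ∈ T, |vo P D| ≤ canDeg k K + 2 * ({P : Place k K | P.ord u ≠ 0}.ncard : ℤ) := by
  classical
  have hu0 : u ≠ 0 := by
    rintro rfl
    exact hu isAlgebraic_zero
  have hf := finite_support (k := k) u
  set V := T ∪ (vo_finite hD).toFinset ∪ hf.toFinset with hV
  have h1 := canDeg_finset hD V (fun P hP => by
    rw [hV, Finset.mem_union, Finset.mem_union, Set.Finite.mem_toFinset]
    exact Or.inl (Or.inr hP))
  have h2 : ∑ P ∈ T, |vo P D| ≤ ∑ P ∈ V, |vo P D| :=
    Finset.sum_le_sum_of_subset_of_nonneg (by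
      intro P hP
      rw [hV, Finset.mem_union, Finset.mem_union]
      exact Or.inl (Or.inl hP)) fun P _ _ => abs_nonneg _
  have h3 : ∀ P ∈ V, |vo P D| = -vo P D + 2 * (if P.ord u ≠ 0 then 1 else 0) := by
    intro P _
    by_cases h : P.ord u = 0
    · rw [if_neg (not_not.2 h), abs_of_nonpos (vo_le_zero P hu0 h hD hDu)]
      ring
    · rw [if_pos h, vo_eq_one P h hD hDu]
      norm_num
  have h4 : (∑ P ∈ V, (if P.ord u ≠ 0 then 1 else 0) : ℤ) =
      ({P : Place k K | P.ord u ≠ 0}.ncard : ℤ) := by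
    rw [Finset.sum_boole, Set.ncard_eq_toFinset_card _ hf]
    congr 2
    ext P
    simp only [Finset.mem_filter, Set.Finite.mem_toFinset, Set.mem_ofPred_eq, hV,
      Finset.mem_union]
    constructor
    · exact fun h => h.2
    · exact fun h => ⟨Or.inr h, h⟩
  refine h2.trans ?_
  rw [Finset.sum_congr rfl h3, Finset.sum_add_distrib, Finset.sum_neg_distrib, h1, neg_neg,
    ← Finset.mul_sum, h4]

/-- the degree of the canonical class and the number of zeros and poles of a function -/
theorem canDeg_supp {u : K} (hu : Transcendental k u) :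
    0 ≤ canDeg k K + ({P : Place k K | P.ord u ≠ 0}.ncard : ℤ) := by
  classical
  obtain ⟨D, hD, hDu⟩ := exists_log_der hu
  have hu0 : u ≠ 0 := by
    rintro rfl
    exact hu isAlgebraic_zero
  have hf := finite_support (k := k) u
  set V := (vo_finite hD).toFinset ∪ hf.toFinset with hV
  have h1 := canDeg_finset hD V (fun P hP => by
    rw [hV, Finset.mem_union, Set.Finite.mem_toFinset]
    exact Or.inl hP)
  have h3 : ∀ P ∈ V, 0 ≤ -vo P D + (if P.ord u ≠ 0 then 1 else 0) := by
    intro P _
    by_cases h : P.ord u = 0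
    · rw [if_neg (not_not.2 h)]
      have := vo_le_zero P hu0 h hD hDu
      omega
    · rw [if_pos h, vo_eq_one P h hD hDu]
      norm_num
  have h4 : (∑ P ∈ V, (if P.ord u ≠ 0 then 1 else 0) : ℤ) =
      ({P : Place k K | P.ord u ≠ 0}.ncard : ℤ) := by
    rw [Finset.sum_boole, Set.ncard_eq_toFinset_card _ hf]
    congr 2
    ext P
    simp only [Finset.mem_filter, Set.Finite.mem_toFinset, Set.mem_ofPred_eq, hV,
      Finset.mem_union]
    constructor
    · exact fun h => h.2
    · exact fun h => ⟨Or.inr h, h⟩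
  have h5 := Finset.sum_nonneg h3
  rw [Finset.sum_add_distrib, Finset.sum_neg_distrib, h1, neg_neg, h4] at h5
  exact h5

/-- a nonconstant element has zeros and poles -/
theorem supp_ne {u : K} (hu : Transcendental k u) : ∃ P : Place k K, P.ord u ≠ 0 := by
  by_contra hcon
  push Not at hcon
  have h1 : hgt k u = 0 := by
    unfold hgt
    rw [finsum_congr fun P => by rw [hcon P]]
    simp
  obtain ⟨c, hc⟩ := const_of_hgt h1.le
  rw [hc] at hu
  exact hu (isAlgebraic_algebraMap c)

theorem one_le_chi {u : K} (hu : Transcendental k u) :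
    1 ≤ canDeg k K + 2 * ({P : Place k K | P.ord u ≠ 0}.ncard : ℤ) := by
  classical
  obtain ⟨D, hD, hDu⟩ := exists_log_der hu
  obtain ⟨P, hP⟩ := supp_ne hu
  have h1 := sum_abs_vo hu hD hDu {P}
  rw [Finset.sum_singleton, vo_eq_one P hP hD hDu] at h1
  exact h1

end one

section many

variable {I : Type} {𝒰 : Ultrafilter I} {k : Type} [Field k] [IsAlgClosed k] [CharZero k]
  {L : I → Type} [∀ i, Field (L i)] [∀ i, Algebra k (L i)] [∀ i, IsFF k (L i)]

theorem dtC (χ : I → ℤ) (u : ∀ i, L i) (hu : ∀ i, Transcendental k (u i))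
    (hχ : ∀ i, canDeg k (L i) + 2 * ({P : Place k (L i) | P.ord (u i) ≠ 0}.ncard : ℤ) ≤ χ i) :
    ∃ Δ : Dt 𝒰 k k L, Δ.χ = χ := by
  classical
  have hχ1 : ∀ i, 1 ≤ χ i := fun i => (one_le_chi (hu i)).trans (hχ i)
  have hχ0 : ∀ i, 0 ≤ χ i := fun i => by linarith [hχ1 i]
  have hFs : ∀ c : k, ∃ B : ℕ, ∀ i, hgt k (algebraMap k (L i) c) ≤ B * χ i := by
    intro c
    refine ⟨0, fun i => ?_⟩
    rw [hgt_algebraic (isAlgebraic_algebraMap c)]
    simp
  choose D hD hDu using fun i => exists_log_der (hu i)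
  refine ⟨{ χ := χ
            E := small 𝒰 χ hχ0 hFs
            hE := ⟨hχ0, fun a => mem_small 𝒰⟩
            D := D
            D_ne := Eventually.of_forall hD
            vo_bd := ⟨1, Eventually.of_forall fun i T => ?_⟩
            one_le := Eventually.of_forall hχ1 }, rfl⟩
  have h1 := sum_abs_vo (hu i) (hD i) (hDu i) T
  refine h1.trans ?_
  push_cast
  linarith [hχ i]

end many

end Pool.Agent.Y731.CC
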