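import Pool.Agent.Y731.FG.Fin4

/-!
# Constant coefficients: independent gradients at points over an extension of an algebraically
# closed field
-/

set_option autoImplicit false
set_option linter.unusedSectionVars false
set_option linter.unusedVariables false

namespace Pool.Agent.Y731.CC

open FF Filter MvPolynomial Pool.Agent.W603.LV Pool.Agent.W603.PV Pool.Agent.W603.CZ
  Pool.Agent.Y731.FG

/-- at the nonzero points over `k` of the cone over `X` there are `s` equations of `X` and one
equation of each component of the divisor through the point with independent gradients -/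
def SNCk {k : Type} [Field k] {n g q w : ℕ} (G : Fin g → MvPolynomial (Fin n) k)
    (Fd : Fin q → Fin w → MvPolynomial (Fin n) k) (s : ℕ) : Prop :=
  ∀ z : Fin n → k, z ≠ 0 → (∀ j, aeval z (G j) = 0) →
    ∃ (T : Fin s → Fin g) (J : Fin q → Fin w), LinearIndependent k
      (Sum.elim (fun (j : Fin s) (c : Fin n) => aeval z (pderiv c (G (T j))))
        (fun (i : {i : Fin q // ∀ j, aeval z (Fd i j) = 0}) (c : Fin n) =>
          aeval z (pderiv c (Fd i.1 (J i.1)))))

section

variable {k : Type} [Field k] [IsAlgClosed k]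

/-- linear independence over an algebraic closure of `k` -/
theorem li_bar {ι : Type} [Fintype ι] {n : ℕ} {v : ι → Fin n → k} (hv : LinearIndependent k v) :
    LinearIndependent (AlgebraicClosure k)
      (fun i c => algebraMap k (AlgebraicClosure k) (v i c)) := by
  have hb : Function.Bijective (algebraMap k (AlgebraicClosure k)) :=
    IsAlgClosed.algebraMap_bijective_of_isIntegral
  rw [Fintype.linearIndependent_iff] at hv ⊢
  intro a ha
  choose b hbb using fun i => hb.2 (a i)
  intro i
  have h1 := hv b (by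
    funext c
    apply hb.1
    have h2 := congrFun ha c
    simp only [Finset.sum_apply, Pi.smul_apply, smul_eq_mul, Pi.zero_apply, map_sum, map_mul,
      map_zero] at h2 ⊢
    rw [← h2]
    exact Finset.sum_congr rfl fun i _ => by rw [hbb]) i
  rw [← hbb, h1, map_zero]

theorem sncf_of_k {n g q w s : ℕ} {G : Fin g → MvPolynomial (Fin n) k}
    {Fd : Fin q → Fin w → MvPolynomial (Fin n) k} (h : SNCk G Fd s) : SNCF G Fd s := by
  classical
  have hb : Function.Bijective (algebraMap k (AlgebraicClosure k)) :=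
    IsAlgClosed.algebraMap_bijective_of_isIntegral
  intro z hz hzG
  choose z0 hz0 using fun c => hb.2 (z c)
  have hval : ∀ p : MvPolynomial (Fin n) k, aeval z p =
      algebraMap k (AlgebraicClosure k) (aeval z0 p) := by
    intro p
    have h1 : z = fun c => algebraMap k (AlgebraicClosure k) (z0 c) := funext fun c => (hz0 c).symm
    rw [h1]
    exact aeval_algebraMap_apply (AlgebraicClosure k) z0 p
  have hval0 : ∀ p : MvPolynomial (Fin n) k, aeval z p = 0 ↔ aeval z0 p = 0 := fun p => by
    rw [hval, map_eq_zero]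
  obtain ⟨T, J, hTJ⟩ := h z0 (by
    rintro rfl
    apply hz
    funext c
    rw [← hz0]
    simp) (fun j => (hval0 _).1 (hzG j))
  refine ⟨T, J, ?_⟩
  have h2 := li_bar hTJ
  let e : {i : Fin q // ∀ j, aeval z (Fd i j) = 0} ≃ {i : Fin q // ∀ j, aeval z0 (Fd i j) = 0} :=
    Equiv.subtypeEquivRight fun i => forall_congr' fun j => hval0 _
  have h3 := h2.comp (Sum.map id e) (Sum.map_injective.2 ⟨Function.injective_id, e.injective⟩)
  have h4 : (fun i c => algebraMap k (AlgebraicClosure k) ((Sum.elim
      (fun (j : Fin s) (c : Fin n) => aeval z0 (pderiv c (G (T j))))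
        (fun (i : {i : Fin q // ∀ j, aeval z0 (Fd i j) = 0}) (c : Fin n) =>
          aeval z0 (pderiv c (Fd i.1 (J i.1))))) i c)) ∘ (Sum.map id e) =
      (Sum.elim (fun (j : Fin s) (c : Fin n) => aeval z (pderiv c (G (T j))))
        (fun (i : {i : Fin q // ∀ j, aeval z (Fd i j) = 0}) (c : Fin n) =>
          aeval z (pderiv c (Fd i.1 (J i.1))))) := by
    funext i
    rcases i with j | i
    · funext c
      exact (hval _).symm
    · funext c
      exact (hval _).symm
  rw [← h4]
  exact h3

/-- independent rows have a nonzero minor -/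
theorem exists_minor' {K : Type} [Field K] {s n : ℕ} (R : Fin s → Fin n → K)
    (hR : LinearIndependent K R) :
    ∃ J : Fin s → Fin n, (Matrix.of fun ρ b => R ρ (J b)).det ≠ 0 := by
  classical
  have h2 := hR.rank_matrix (M := Matrix.of R)
  rw [Fintype.card_fin, Matrix.rank_eq_finrank_span_cols] at h2
  obtain ⟨f, hf, -, hli⟩ := Submodule.exists_fun_fin_finrank_span_eq K (Set.range (Matrix.of R).col)
  have hf' : ∀ s : Fin s, ∃ j, (Matrix.of R).col j = f (Fin.cast h2.symm s) := fun s => hf _
  choose J hJ using hf'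
  refine ⟨J, ?_⟩
  have h4 : LinearIndependent K ((Matrix.of R).submatrix id J).col := by
    have h5 := hli.comp (Fin.cast h2.symm) (Fin.cast_injective _)
    have h6 : ((Matrix.of R).submatrix id J).col = f ∘ (Fin.cast h2.symm) := by
      funext s
      exact hJ s
    rw [h6]
    exact h5
  have h5 : IsUnit ((Matrix.of R).submatrix id J) := Matrix.linearIndependent_cols_iff_isUnit.1 h4
  exact ((Matrix.isUnit_iff_isUnit_det _).1 h5).ne_zero

/-- rows with a nonzero minor are independent -/
theorem li_of_minor {K : Type} [Field K] {s n : ℕ} (R : Fin s → Fin n → K) (J : Fin s → Fin n)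
    (hJ : (Matrix.of fun ρ b => R ρ (J b)).det ≠ 0) : LinearIndependent K R := by
  have h6 : LinearIndependent K (Matrix.of fun ρ b => R ρ (J b)).row :=
    Matrix.linearIndependent_rows_iff_isUnit.2
      ((Matrix.isUnit_iff_isUnit_det _).2 (isUnit_iff_ne_zero.2 hJ))
  rw [Fintype.linearIndependent_iff] at h6 ⊢
  intro a ha
  apply h6
  funext b
  have h7 := congrFun ha (J b)
  simp only [Finset.sum_apply, Pi.smul_apply, smul_eq_mul, Pi.zero_apply] at h7 ⊢
  exact h7

/-- independent gradients at a point over an extension of `k` -/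
theorem exists_indepK {K : Type} [Field K] [Algebra k K] {n g q w s : ℕ}
    {G : Fin g → MvPolynomial (Fin n) k} {Fd : Fin q → Fin w → MvPolynomial (Fin n) k}
    (hNC : SNCk G Fd s) (x : Fin n → K) (hx : ∃ c, x c ≠ 0) (hG : ∀ j, aeval x (G j) = 0) :
    ∃ T : Fin s → Fin g, LinearIndependent K
      (fun (j : Fin s) (c : Fin n) => aeval x (pderiv c (G (T j)))) := by
  classical
  by_contra hcon
  push Not at hcon
  set P : Ideal (MvPolynomial (Fin n) k) := RingHom.ker (aeval x : MvPolynomial (Fin n) k →ₐ[k] K)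
    with hP
  have hPp : P.IsPrime := RingHom.ker_isPrime _
  obtain ⟨c, hc⟩ := hx
  have h1 : (X c : MvPolynomial (Fin n) k) ∉ vanishingIdeal k (zeroLocus k P) := by
    rw [IsPrime.vanishingIdeal_zeroLocus, hP, RingHom.mem_ker]
    change aeval x (X c) ≠ 0
    rw [aeval_X]
    exact hc
  rw [mem_vanishingIdeal_iff] at h1
  push Not at h1
  obtain ⟨z, hz, hzc⟩ := h1
  rw [aeval_X] at hzc
  have hz' : ∀ p : MvPolynomial (Fin n) k, aeval x p = 0 → aeval z p = 0 := fun p hp =>
    (mem_zeroLocus_iff.1 hz) p hp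
  obtain ⟨T, J, hTJ⟩ := hNC z (fun h => hzc (by rw [h]; rfl)) (fun j => hz' _ (hG j))
  have h2 : LinearIndependent k (fun (j : Fin s) (c : Fin n) => aeval z (pderiv c (G (T j)))) :=
    hTJ.comp Sum.inl Sum.inl_injective
  obtain ⟨Q, hQ⟩ := exists_minor' _ h2
  apply hQ
  have h3 : ∀ {K' : Type} [Field K'] [Algebra k K'] (y : Fin n → K'),
      (Matrix.of fun (ρ b : Fin s) => aeval y (pderiv (Q b) (G (T ρ)))).det =
        aeval y (Matrix.of fun (ρ b : Fin s) => pderiv (Q b) (G (T ρ))).det := by
    intro K' _ _ y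
    rw [AlgHom.map_det]
    rfl
  have h4 : (Matrix.of fun (ρ b : Fin s) => aeval x (pderiv (Q b) (G (T ρ)))).det = 0 := by
    by_contra h5
    apply hcon T
    have h6 : LinearIndependent K
        (Matrix.of fun (ρ b : Fin s) => aeval x (pderiv (Q b) (G (T ρ)))).row :=
      Matrix.linearIndependent_rows_iff_isUnit.2
        ((Matrix.isUnit_iff_isUnit_det _).2 (isUnit_iff_ne_zero.2 h5))
    rw [Fintype.linearIndependent_iff] at h6 ⊢
    intro a ha
    apply h6
    funext b
    have h7 := congrFun ha (Q b)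
    simp only [Finset.sum_apply, Pi.smul_apply, smul_eq_mul, Pi.zero_apply] at h7 ⊢
    exact h7
  have h5 := h3 x
  rw [h4] at h5
  exact (h3 z).trans (hz' _ h5.symm)

end

section

variable {F K : Type} [Field F] [Field K] [Algebra F K] {k : Type} [Field k] [Algebra k K]

/-- the Pluecker coordinates do not depend on the basis -/
theorem gaussI [IsAlgClosed k] [CharZero k] [IsFF k K] {N s g : ℕ}
    {G : Fin g → MvPolynomial (Fin (N + 1 + s)) F}
    (x : Fin (N + 1 + s) → K)
    (hI : ∃ T : Fin s → Fin g, LinearIndependent K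
      (fun (j : Fin s) (c : Fin (N + 1 + s)) => aeval x (pderiv c (G (T j)))))
    (A : Matrix (Fin (N + 1 + s)) (Fin (N + 1)) K)
    (hA : LinearIndependent K (fun ρ : Fin (N + 1) => fun c : Fin (N + 1 + s) => A c ρ))
    (hA0 : ∀ j ρ, ∑ c, aeval x (pderiv c (G j)) * A c ρ = 0)
    (R : Fin (N + 1) → Fin (N + 1 + s) → K)
    (hR0 : ∀ j ρ, ∑ c, aeval x (pderiv c (G j)) * R ρ c = 0)
    (hR : ∃ J : Fin (N + 1) → Fin (N + 1 + s), (Matrix.of fun ρ b => R ρ (J b)).det ≠ 0) :
    (∃ J : Fin (N + 1) → Fin (N + 1 + s), (A.submatrix J id).det ≠ 0) ∧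
    hgtP k (fun J : Fin (N + 1) → Fin (N + 1 + s) => (A.submatrix J id).det) =
      hgtP k (fun J : Fin (N + 1) → Fin (N + 1 + s) => (Matrix.of fun ρ b => R ρ (J b)).det) := by
  obtain ⟨T, hT⟩ := hI
  obtain ⟨Q, hQ⟩ := combF _ hT (fun ρ c => A c ρ) R hA (fun ρ j => hA0 (T j) ρ)
    (fun ρ j => hR0 (T j) ρ)
  have h1 : ∀ J : Fin (N + 1) → Fin (N + 1 + s), (Matrix.of fun ρ b => R ρ (J b)).det =
      Q.det * (A.submatrix J id).det := by
    intro J
    have h2 : (Matrix.of fun ρ b => R ρ (J b)) = Q * (A.submatrix J id).transpose := by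
      ext ρ b
      rw [Matrix.of_apply, hQ, Matrix.mul_apply]
      rfl
    rw [h2, Matrix.det_mul, Matrix.det_transpose]
  obtain ⟨J, hJ⟩ := hR
  rw [h1] at hJ
  refine ⟨⟨J, right_ne_zero_of_mul hJ⟩, ?_⟩
  simp only [h1]
  exact (hgtP_smul (left_ne_zero_of_mul hJ) ⟨J, right_ne_zero_of_mul hJ⟩).symm

end

end Pool.Agent.Y731.CC
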