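import Pool.Agent.Y731.CC.Ult
import Pool.Agent.Y731.FG.Fin5
import Pool.Agent.W619.TW.Hyp
import Pool.Agent.W619.PQ.Curve

/-!
# The inequality for curves in a variety over the constant field
-/

set_option autoImplicit false
set_option linter.unusedSectionVars false
set_option linter.unusedVariables false

namespace Pool.Agent.Y731.CC

open FF Filter MvPolynomial Pool.Agent.W603.LV Pool.Agent.W603.PV Pool.Agent.W603.CZ
  Pool.Agent.Y731.FG
open scoped Classical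

section one

variable {k K : Type} [Field k] [IsAlgClosed k] [CharZero k] [Field K] [Algebra k K] [IsFF k K]

/-- a nonconstant point has terms with a nonconstant ratio -/
theorem exists_ratio {M m : ℕ} {x : Fin M → K} {wt : Fin M → Fin m → K}
    (hxw : ∀ c, x c = ∑ j, wt c j) (hx : ∃ c c', Transcendental k (x c / x c')) :
    ∃ c j c' j', wt c j ≠ 0 ∧ wt c' j' ≠ 0 ∧ Transcendental k (wt c j / wt c' j') := by
  by_contra hcon
  push Not at hcon
  obtain ⟨c, c', hcc⟩ := hx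
  have h0 : ∃ c0 j0, wt c0 j0 ≠ 0 := by
    by_contra h
    push Not at h
    apply hcc
    rw [hxw c, Finset.sum_eq_zero fun j _ => h c j, zero_div]
    exact isAlgebraic_zero
  obtain ⟨c0, j0, h00⟩ := h0
  have h1 : ∀ c j, ∃ a : k, wt c j = algebraMap k K a * wt c0 j0 := by
    intro c j
    by_cases h : wt c j = 0
    · exact ⟨0, by rw [h, map_zero, zero_mul]⟩
    · have h2 := hcon c j c0 j0 h h00
      by_contra h3
      apply h2
      refine Pool.Agent.W619.TW.transcendental_of_not_const fun a ha => h3 ⟨a, ?_⟩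
      rw [ha, div_mul_cancel₀ _ h00]
  choose a ha using h1
  have h2 : ∀ c, x c = algebraMap k K (∑ j, a c j) * wt c0 j0 := by
    intro c
    rw [hxw, map_sum, Finset.sum_mul]
    exact Finset.sum_congr rfl fun j _ => ha c j
  apply hcc
  rw [h2 c, h2 c', mul_div_mul_right _ _ h00, ← map_div₀]
  exact isAlgebraic_algebraMap _

theorem supp_le_uneq {M m : ℕ} {wt : Fin M → Fin m → K} {c : Fin M} {j : Fin m} {c' : Fin M}
    {j' : Fin m} (h : wt c j ≠ 0) (h' : wt c' j' ≠ 0) :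
    {P : Place k K | P.ord (wt c j / wt c' j') ≠ 0}.ncard ≤ (uneq k wt).ncard := by
  refine Set.ncard_le_ncard ?_ (uneq_finite wt)
  intro P hP
  refine ⟨c, j, c', j', h, h', fun h1 => hP ?_⟩
  rw [P.ord_div h h', h1, sub_self]

/-- the genus is nonnegative -/
theorem canDeg_ge : 0 ≤ canDeg k K + 2 := by
  by_cases h : ∃ t : K, IntermediateField.adjoin k {t} = ⊤
  · obtain ⟨t, ht⟩ := h
    rw [Pool.Agent.W619.PQ.canDeg_rational ht]
    norm_num
  · have := Pool.Agent.W619.TW.canDeg_nonneg h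
    omega

end one

/-- **The inequality for curves.** -/
theorem ccMain {k : Type} [Field k] [IsAlgClosed k] [CharZero k] {N s g q w : ℕ} (m : ℕ)
    (G : Fin g → MvPolynomial (Fin (N + 1 + s)) k)
    (eG : Fin g → ℕ) (hG : ∀ j, (G j).IsHomogeneous (eG j))
    (Fd : Fin q → Fin w → MvPolynomial (Fin (N + 1 + s)) k) (d : Fin q → Fin w → ℕ)
    (hF : ∀ i j, (Fd i j).IsHomogeneous (d i j)) (hNC : SNCk G Fd s)
    (J0 : Fin (N + 1) → Fin (N + 1 + s)) (ε : ℝ) (hε : 0 < ε) :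
    ∃ (Φ : MvPolynomial (Fin (N + 1)) k) (C : ℕ), (∃ n, Φ.IsHomogeneous n) ∧ Φ ≠ 0 ∧
      ∀ (L : Type) [Field L] [Algebra k L] [IsFF k L] (x : Fin (N + 1 + s) → L)
        (wt : Fin (N + 1 + s) → Fin m → L), (∀ j, aeval x (G j) = 0) →
        (∀ i, ∃ j, aeval x (Fd i j) ≠ 0) → (∀ c, x c = ∑ j, wt c j) →
        (∃ c c', Transcendental k (x c / x c')) →
        aeval (fun ρ => x (J0 ρ)) Φ ≠ 0 →
        (∃ A : Matrix (Fin (N + 1 + s)) (Fin (N + 1)) L,
          LinearIndependent L (fun ρ : Fin (N + 1) => fun c : Fin (N + 1 + s) => A c ρ) ∧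
          ∀ j ρ, ∑ c, aeval x (pderiv c (G j)) * A c ρ = 0) ∧
        ∀ A : Matrix (Fin (N + 1 + s)) (Fin (N + 1)) L,
        LinearIndependent L (fun ρ : Fin (N + 1) => fun c : Fin (N + 1 + s) => A c ρ) →
        (∀ j ρ, ∑ c, aeval x (pderiv c (G j)) * A c ρ = 0) →
        ((hgtP k (fun J : Fin (N + 1) → Fin (N + 1 + s) => (A.submatrix J id).det) -
          (N + 1) * hgtP k x + ∑ i, ∑ᶠ P : Place k L, locH (Fd i) (d i) P x : ℤ) : ℝ) ≤
          ({P : Place k L | ∃ i, 0 < locH (Fd i) (d i) P x}.ncard : ℝ) + ε * hgtP k x +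
            C * (canDeg k L + 2 * (uneq k wt).ncard) := by
  by_contra hcon
  let S : Set (MvPolynomial (Fin (N + 1)) k) := {Φ | (∃ n, Φ.IsHomogeneous n) ∧ Φ ≠ 0}
  obtain ⟨𝒰, h𝒰⟩ := exists_uf S (fun a ha => ha.2) (fun a ha b hb => by
    obtain ⟨⟨n, hn⟩, ha0⟩ := ha
    obtain ⟨⟨n', hn'⟩, hb0⟩ := hb
    exact ⟨⟨_, hn.mul hn'⟩, mul_ne_zero ha0 hb0⟩) ⟨1, ⟨0, isHomogeneous_one _ _⟩, one_ne_zero⟩
  have hex : ∀ i : S × ℕ, ∃ (L : Type) (_ : Field L) (_ : Algebra k L)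
      (_ : IsFF k L) (x : Fin (N + 1 + s) → L)
      (wt : Fin (N + 1 + s) → Fin m → L),
      (∀ j, aeval x (G j) = 0) ∧ (∀ i, ∃ j, aeval x (Fd i j) ≠ 0) ∧ (∀ c, x c = ∑ j, wt c j) ∧
        aeval (fun ρ => x (J0 ρ)) (i.1 : MvPolynomial (Fin (N + 1)) k) ≠ 0 ∧
        (∃ c c', Transcendental k (x c / x c')) ∧
        ¬ ((∃ A : Matrix (Fin (N + 1 + s)) (Fin (N + 1)) L,
          LinearIndependent L (fun ρ : Fin (N + 1) => fun c : Fin (N + 1 + s) => A c ρ) ∧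
          ∀ j ρ, ∑ c, aeval x (pderiv c (G j)) * A c ρ = 0) ∧
        ∀ A : Matrix (Fin (N + 1 + s)) (Fin (N + 1)) L,
        LinearIndependent L (fun ρ : Fin (N + 1) => fun c : Fin (N + 1 + s) => A c ρ) →
        (∀ j ρ, ∑ c, aeval x (pderiv c (G j)) * A c ρ = 0) → ((hgtP k (fun J : Fin (N + 1) → Fin (N + 1 + s) => (A.submatrix J id).det) -
          (N + 1) * hgtP k x + ∑ i, ∑ᶠ P : Place k L, locH (Fd i) (d i) P x : ℤ) : ℝ) ≤
          ({P : Place k L | ∃ i, 0 < locH (Fd i) (d i) P x}.ncard : ℝ) + ε * hgtP k x +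
            i.2 * (canDeg k L + 2 * (uneq k wt).ncard)) := by
    rintro ⟨⟨Φ, hΦ⟩, C⟩
    by_contra hno
    apply hcon
    refine ⟨Φ, C, hΦ.1, hΦ.2, ?_⟩
    intro L _ _ _ x wt h1 h2 h3 h3' h4
    by_contra h7
    exact hno ⟨L, _, _, inferInstance, x, wt, h1, h2, h3, h4, h3', h7⟩
  choose L iF ikL iFF x wt h1 h2 h3 h4 h6' h7 using hex
  choose a b a' b' hr1 hr2 hr3 using fun i => exists_ratio (h3 i) (h6' i)
  set χ : S × ℕ → ℤ := fun i => canDeg k (L i) + 2 * ((uneq k (wt i)).ncard : ℤ) with hχ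
  have hsup : ∀ i, ({P : Place k (L i) | P.ord (wt i (a i) (b i) / wt i (a' i) (b' i)) ≠ 0}.ncard
      : ℤ) ≤ (uneq k (wt i)).ncard := fun i => by
    exact_mod_cast supp_le_uneq (hr1 i) (hr2 i)
  obtain ⟨Δ, hΔ⟩ := dtC (𝒰 := 𝒰) (k := k) (L := L) χ
    (fun i => wt i (a i) (b i) / wt i (a' i) (b' i)) hr3 (fun i => by
      have := hsup i
      rw [hχ]
      simp only
      linarith)
  obtain ⟨C, hC⟩ := ultraI Δ (allLOC Δ) (allRP Δ) (allHT Δ) allSD G eG Fd d hG hF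
    (sncf_of_k hNC) J0 x wt h1 h2
    h3 (fun i => exists_indepK hNC (x i) (by
      by_contra hno
      push Not at hno
      obtain ⟨c, c', hcc⟩ := h6' i
      apply hcc
      rw [hno c, zero_div]
      exact isAlgebraic_zero) (h1 i)) (by
      intro Φ n hn hΦ
      filter_upwards [h𝒰 Φ ⟨⟨n, hn⟩, hΦ⟩ 0] with i hi h0
      apply h4 i
      obtain ⟨Ψ, hΨ⟩ := hi.1
      rw [hΨ, map_mul, h0, zero_mul]) 1 (by
      refine Eventually.of_forall fun i => ?_
      rw [hΔ, hχ]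
      simp only
      have g1 := hsup i
      push_cast
      have g3 : 0 ≤ canDeg k (L i) + ({P : Place k (L i) |
        P.ord (wt i (a i) (b i) / wt i (a' i) (b' i)) ≠ 0}.ncard : ℤ) := canDeg_supp (hr3 i)
      linarith) ε hε
  obtain ⟨C0, hC0⟩ := exists_nat_ge C
  obtain ⟨i, hi1, hi2⟩ := (hC.and (h𝒰 1 ⟨⟨0, isHomogeneous_one _ _⟩, one_ne_zero⟩ C0)).exists
  apply h7 i
  refine ⟨hi1.1, fun A hA hA0 => (hi1.2 A hA hA0).trans ?_⟩
  have g1 : (0 : ℝ) ≤ Δ.χ i := by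
    exact_mod_cast Δ.hE.1 i
  have g2 : (C : ℝ) ≤ i.2 := hC0.trans (by exact_mod_cast hi2.2)
  have g3 : (Δ.χ i : ℝ) = canDeg k (L i) + 2 * (uneq k (wt i)).ncard := by
    rw [hΔ, hχ]
    push_cast
    rfl
  rw [← g3]
  have := mul_le_mul_of_nonneg_right g2 g1
  linarith

end Pool.Agent.Y731.CC
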